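import Pool.Agent.R253.BE.Hardy

/-!
# Hardy regularity of kernels of Bergman-space extremal functions (Q1 of MP_397fae_an)

For `1 < p < ∞`, `q = p/(p-1)` and every `1 < q₁ < ∞` (in particular for all `q ≤ q₁ < ∞`): if the
extremal function `F` of a nonzero kernel `k ∈ A^q` lies in `H^{(p-1)q₁}`, then `k ∈ H^{q₁}`.
-/

set_option autoImplicit false

namespace Pool.Agent.Results.MP_397fae_an.KernelHardy

open Complex Metric Set Filter Topology MeasureTheory ComplexConjugate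

/-- the area measure on the unit disc, normalised to have total mass one -/
noncomputable def sigma : Measure ℂ :=
  ENNReal.ofReal (1 / Real.pi) • volume.restrict (ball (0:ℂ) 1)

/-- the Bergman space `A^r`: `f` is analytic in the disc and `∫ |f|^r dσ < ∞` -/
def InBergman (r : ℝ) (f : ℂ → ℂ) : Prop :=
  DifferentiableOn ℂ f (ball 0 1) ∧ Integrable (fun z => ‖f z‖ ^ r) sigma

/-- the norm of `A^r` -/
noncomputable def bergmanNorm (r : ℝ) (f : ℂ → ℂ) : ℝ := (∫ z, ‖f z‖ ^ r ∂sigma) ^ (1 / r)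

/-- the functional `f ↦ ∫ f k̄ dσ` with kernel `k` -/
noncomputable def functional (k f : ℂ → ℂ) : ℂ := ∫ z, f z * conj (k z) ∂sigma

/-- `F` is the extremal function for the kernel `k` in `A^p`: `‖F‖ = 1` and `F` maximises
`Re ∫ f k̄ dσ` over all `f ∈ A^p` of norm one -/
def IsExtremal (p : ℝ) (k F : ℂ → ℂ) : Prop :=
  InBergman p F ∧ bergmanNorm p F = 1 ∧
    ∀ f, InBergman p f → bergmanNorm p f = 1 → (functional k f).re ≤ (functional k F).re

/-- the integral mean `M_s(f, r) = ((1/2π) ∫ |f(re^{iθ})|^s dθ)^{1/s}` -/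
noncomputable def integralMean (s : ℝ) (f : ℂ → ℂ) (r : ℝ) : ℝ :=
  (1 / (2 * Real.pi) * ∫ θ in (0:ℝ)..(2 * Real.pi), ‖f (r * exp (θ * I))‖ ^ s) ^ (1 / s)

/-- the Hardy space `H^s`: `f` is analytic in the disc and `M_s(f, r)` is bounded for
`0 < r < 1` -/
def InHardy (s : ℝ) (f : ℂ → ℂ) : Prop :=
  DifferentiableOn ℂ f (ball 0 1) ∧ ∃ C : ℝ, ∀ r : ℝ, 0 < r → r < 1 → integralMean s f r ≤ C

lemma circ_eq (r θ : ℝ) : (r : ℂ) * exp (θ * I) = circleMap 0 r θ := by simp [circleMap]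

lemma mean_nonneg (s : ℝ) (f : ℂ → ℂ) (r : ℝ) :
    0 ≤ 1 / (2 * Real.pi) * ∫ θ in (0:ℝ)..(2 * Real.pi), ‖f (r * exp (θ * I))‖ ^ s := by
  have := intervalIntegral.integral_nonneg (a := 0) (b := 2 * Real.pi) (μ := volume)
    (f := fun θ : ℝ => ‖f (r * exp (θ * I))‖ ^ s) (by positivity) (fun θ _ => by positivity)
  positivity

/-- **Answer to Q1 (affirmative), for all `1 < q₁ < ∞`.** Let `1 < p < ∞`, `q = p/(p-1)` and
`1 < q₁ < ∞`. If `F` is the extremal function for a nonzero kernel `k ∈ A^q` and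
`F ∈ H^{(p-1)q₁}`, then `k ∈ H^{q₁}`. -/
theorem result : ∀ p q q₁ : ℝ, 1 < p → q = p / (p - 1) → 1 < q₁ → ∀ k F : ℂ → ℂ,
    InBergman q k → (∃ z ∈ ball (0:ℂ) 1, k z ≠ 0) → IsExtremal p k F →
    InHardy ((p - 1) * q₁) F → InHardy q₁ k := by
  intro p q s hp hq hs k F hk _ hF hH
  have hpi := Real.pi_pos
  have hpq : p.HolderConjugate q := by
    rw [hq]; exact Real.HolderConjugate.conjExponent hp
  have hc : 0 < 1 / Real.pi := by positivity
  have hkA : R253.BE.InA (R253.BE.am (1 / Real.pi)) q k := hk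
  have hFA : R253.BE.IsExt (R253.BE.am (1 / Real.pi)) p k F := hF
  set t : ℝ := s / (s - 1) with ht
  have hs1 : 0 < s - 1 := by linarith
  have ht1 : 1 < t := by rw [ht, one_lt_div hs1]; linarith
  have hst : (s - 1) * (t - 1) = 1 := by
    rw [ht]; field_simp; ring
  have hM : 0 < (p - 1) * s := mul_pos (by linarith) (by linarith)
  obtain ⟨_, C, hC⟩ := hH
  have hMF : ∀ r : ℝ, 0 < r → r < 1 →
      ∫ θ in (0:ℝ)..(2 * Real.pi), ‖F (circleMap 0 r θ)‖ ^ ((p - 1) * s) ≤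
        2 * Real.pi * C ^ ((p - 1) * s) := by
    intro r h0 h1
    have h := hC r h0 h1
    have hn := mean_nonneg ((p - 1) * s) F r
    unfold integralMean at h
    have h2 := Real.rpow_le_rpow (Real.rpow_nonneg hn _) h hM.le
    rw [← Real.rpow_mul hn, one_div_mul_cancel hM.ne', Real.rpow_one] at h2
    simp only [circ_eq] at h2
    rw [one_div, inv_mul_le_iff₀ (by positivity)] at h2
    exact h2
  obtain ⟨D, hD0, hD⟩ := R253.BE.ub_P1 hc hpq hs ht1 hst hkA hFA hMF
  obtain ⟨B, hB⟩ := R253.BE.hardy_of_dual hk.1 hs ht1 hst hD0 hD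
  refine ⟨hk.1, (1 / (2 * Real.pi) * B) ^ (1 / s), fun r h0 h1 => ?_⟩
  unfold integralMean
  apply Real.rpow_le_rpow (mean_nonneg s k r) _ (by positivity)
  simp only [circ_eq]
  exact mul_le_mul_of_nonneg_left (hB r h0 h1) (by positivity)

end Pool.Agent.Results.MP_397fae_an.KernelHardy
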